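import Pool.Agent.helper41.DMax.Grp

/-!
The group `Gs (c+1) (c+2)` is `d`-maximal of class at least `c + 1`.
-/

set_option autoImplicit false

namespace Pool.Agent.H41.DMax

variable {m r : ℕ}

lemma card_CC : Nat.card (CC r) = 2 ^ r := by
  rw [Nat.card_fun, Nat.card_zmod, Nat.card_eq_fintype_card, Fintype.card_fin]

/-- Subgroups of index two in the sense of cardinalities. -/
lemma mul_relIndex {A : Type*} [AddCommGroup A] [Finite A] {X Y : AddSubgroup A} (h : X ≤ Y) :
    Nat.card Y = Nat.card X * X.relIndex Y := by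
  rw [AddSubgroup.relIndex, ← AddSubgroup.card_mul_index (X.addSubgroupOf Y)]
  congr 1
  exact Nat.card_congr (AddSubgroup.addSubgroupOfEquivOfLe h).toEquiv

lemma cases_aux {a k l : ℕ} (ha : a ≠ 0) (hk : k ≠ 0) (hl : l ≠ 0) (h : a * k * l ≤ 2) :
    (a ≤ 2 ∧ k = 1 ∧ l = 1) ∨ (a = 1 ∧ k ≤ 2 ∧ l = 1) ∨ (a = 1 ∧ k = 1 ∧ l ≤ 2) := by
  have ha0 : 1 ≤ a := Nat.one_le_iff_ne_zero.mpr ha
  have hk0 : 1 ≤ k := Nat.one_le_iff_ne_zero.mpr hk
  have hl0 : 1 ≤ l := Nat.one_le_iff_ne_zero.mpr hl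
  have ba : a ≤ 2 := by nlinarith [Nat.mul_le_mul hk0 hl0]
  have bk : k ≤ 2 := by nlinarith [Nat.mul_le_mul ha0 hl0]
  have bl : l ≤ 2 := by nlinarith [Nat.mul_le_mul ha0 hk0]
  interval_cases a <;> interval_cases k <;> interval_cases l <;> omega

/-- Main inequality. -/
lemma main_ineq (hm : 1 ≤ m) (hr : m + 1 ≤ r) {H : Subgroup (WW m r)} (hH : H < Gs m r) :
    2 * (Nat.card (C1 H) * Nat.card (N1 H)) <
      2 ^ r * Nat.card (tors (NN m r)) * Nat.card (rad (C1 H) (N1 H)) := by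
  set D := C1 H with hDdef
  set Y := N1 H with hYdef
  have hYN : Y ≤ NN m r := N1_le hH.le
  have hinv : ∀ c ∈ D, ∀ f ∈ Y, tr c f ∈ Y := N1_inv
  have hradY : rad D Y ≤ Y := rad_le hinv
  -- factorizations
  have e1 : 2 ^ r = Nat.card D * D.index := by
    rw [AddSubgroup.card_mul_index, card_CC]
  have e2 : Nat.card (rad D Y) = Nat.card (mulP 2 Y) * (mulP 2 Y).relIndex (rad D Y) :=
    mul_relIndex (mulP_le_rad D Y)
  have htorle : tors Y ≤ tors (NN m r) := fun x hx => ⟨hYN hx.1, hx.2⟩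
  have e3 : Nat.card (tors (NN m r)) = Nat.card (tors Y) * (tors Y).relIndex (tors (NN m r)) :=
    mul_relIndex htorle
  have e4 := card_eq_tors Y
  by_contra hcon
  push Not at hcon
  rw [e1, e2, e3, e4] at hcon
  have p1 : 0 < Nat.card D := Nat.card_pos
  have p2 : 0 < Nat.card (mulP 2 Y) := Nat.card_pos
  have p3 : 0 < Nat.card (tors Y) := Nat.card_pos
  set a := D.index with ha
  set k := (mulP 2 Y).relIndex (rad D Y) with hk
  set l := (tors Y).relIndex (tors (NN m r)) with hl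
  have q1 : a ≠ 0 := by
    intro h
    rw [h, mul_zero] at e1
    exact absurd e1 (by positivity)
  have q2 : k ≠ 0 := by
    intro h
    rw [h, mul_zero] at e2
    exact absurd e2 Nat.card_pos.ne'
  have q3 : l ≠ 0 := by
    intro h
    rw [h, mul_zero] at e3
    exact absurd e3 Nat.card_pos.ne'
  have hakl : a * k * l ≤ 2 := by
    have h1 : (Nat.card D * Nat.card (mulP 2 Y) * Nat.card (tors Y)) * (a * k * l) ≤
        (Nat.card D * Nat.card (mulP 2 Y) * Nat.card (tors Y)) * 2 := by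
      calc _ = Nat.card D * a * (Nat.card (tors Y) * l) * (Nat.card (mulP 2 Y) * k) := by ring
        _ ≤ _ := hcon
        _ = _ := by ring
    exact Nat.le_of_mul_le_mul_left h1 (by positivity)
  -- consequences of `a ≤ 2`, etc.
  have ha1 : a = 1 → D = ⊤ := fun h => AddSubgroup.index_eq_one.mp h
  have ha2 : a ≤ 2 → ∀ c d : CC r, c ∈ D ∨ d ∈ D ∨ c + d ∈ D := by
    intro h c d
    have h1 : Nat.card (⊤ : AddSubgroup (CC r)) ≤ 2 * Nat.card D := by
      rw [AddSubgroup.card_top, card_CC, e1]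
      nlinarith
    have := index_le_two (le_top : D ≤ ⊤) h1 c trivial d trivial
    have h2 : c - d = c + d := by rw [sub_eq_add_neg, CC_neg]
    rwa [h2] at this
  have hk1 : k = 1 → rad D Y ≤ mulP 2 Y := fun h => AddSubgroup.relIndex_eq_one.mp h
  have hk2 : k ≤ 2 → ∀ x ∈ rad D Y, ∀ y ∈ rad D Y,
      x ∈ mulP 2 Y ∨ y ∈ mulP 2 Y ∨ x - y ∈ mulP 2 Y := by
    intro h
    apply index_le_two (mulP_le_rad D Y)
    rw [e2]
    nlinarith
  have hl1 : l = 1 → ∀ f ∈ NN m r, (2 : ℕ) • f = 0 → f ∈ Y := by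
    intro h f hf hf2
    have h1 := AddSubgroup.relIndex_eq_one.mp h
    exact (h1 ⟨hf, hf2⟩).1
  have hl2 : l ≤ 2 → ∀ u ∈ RM m r m, ∀ v ∈ RM m r m, u ∈ Y ∨ v ∈ Y ∨ u - v ∈ Y := by
    intro h u hu v hv
    have h1 : Nat.card (tors (NN m r)) ≤ 2 * Nat.card (tors Y) := by
      rw [e3]
      nlinarith
    rcases index_le_two htorle h1 u ⟨RM_le_NN hm hu, two_nsmul_RM hm hu⟩ v
      ⟨RM_le_NN hm hv, two_nsmul_RM hm hv⟩ with h | h | h
    · exact Or.inl h.1
    · exact Or.inr (Or.inl h.1)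
    · exact Or.inr (Or.inr h.1)
  have hcases := cases_aux q1 q2 q3 hakl
  rcases hcases with ⟨h1, h2, h3⟩ | ⟨h1, h2, h3⟩ | ⟨h1, h2, h3⟩
  · exact core_a hm hr D (ha2 h1) Y (hl1 h3) (hk1 h2)
  · have hD : D = ⊤ := ha1 h1
    have hY : NN m r ≤ Y := by
      have hk2' := hk2 h2
      rw [hD] at hk2'
      exact core_b2 hm hr Y hYN (hl1 h3) hk2'
    -- then `H = Gs`
    apply hH.not_ge
    intro w hw
    have h4 : w.c ∈ D := by rw [hD]; trivial
    obtain ⟨w', hw', hc⟩ := h4
    have h5 : w = inl (w * w'⁻¹).f * w' := by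
      have : inl (w * w'⁻¹).f = w * w'⁻¹ := by
        apply WW.ext
        · rfl
        rw [inl_c, WW.mul_c, WW.inv_c, hc, add_neg_cancel]
      rw [this, inv_mul_cancel_right]
    rw [h5]
    refine H.mul_mem (hY ?_) hw'
    exact (Gs m r).mul_mem hw ((Gs m r).inv_mem (hH.le hw'))
  · have hD : D = ⊤ := ha1 h1
    have hk1' := hk1 h2
    rw [hD] at hk1'
    exact core_b1 hm hr Y (hl2 h3) hk1'

/-- the abelian quotient -/
abbrev EE (m r : ℕ) := CC r × (NN m r ⧸ (BB m r).addSubgroupOf (NN m r))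

/-- the homomorphism to the abelian quotient -/
def phi (m r : ℕ) : Gs m r →* Multiplicative (EE m r) where
  toFun w := Multiplicative.ofAdd (w.1.c, QuotientAddGroup.mk ⟨w.1.f, w.2⟩)
  map_one' := rfl
  map_mul' := by
    intro a b
    rw [← ofAdd_add]
    congr 1
    apply Prod.ext
    · rfl
    · simp only [Prod.mk_add_mk]
      rw [← QuotientAddGroup.mk_add, QuotientAddGroup.eq]
      rw [AddSubgroup.mem_addSubgroupOf]
      have h := diff_mem a.1.c b.2
      have h2 : (((-(⟨(a * b).1.f, (a * b).2⟩ : NN m r) +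
        ((⟨a.1.f, a.2⟩ : NN m r) + ⟨b.1.f, b.2⟩) : NN m r)) : MM m r) =
          -(tr a.1.c b.1.f - b.1.f) := by
        simp only [AddSubgroup.coe_add, AddSubgroup.coe_neg, Subgroup.coe_mul, WW.mul_f]
        abel
      rw [h2]
      exact AddSubgroup.neg_mem _ h

lemma phi_surjective : Function.Surjective (phi m r) := by
  intro x
  obtain ⟨c, q⟩ := x
  obtain ⟨f, rfl⟩ := QuotientAddGroup.mk_surjective q
  exact ⟨⟨⟨f.1, c⟩, f.2⟩, rfl⟩

lemma EE_add_self (x : EE m r) : x + x = 0 := by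
  obtain ⟨c, q⟩ := x
  obtain ⟨f, rfl⟩ := QuotientAddGroup.mk_surjective q
  apply Prod.ext
  · exact CC_add_self c
  · change (QuotientAddGroup.mk f : NN m r ⧸ (BB m r).addSubgroupOf (NN m r)) +
      QuotientAddGroup.mk f = 0
    rw [← QuotientAddGroup.mk_add, QuotientAddGroup.eq_zero_iff, AddSubgroup.mem_addSubgroupOf,
      ← two_nsmul]
    exact two_nsmul_mem_BB f.2

instance : Finite (EE m r) := by
  haveI : Finite (NN m r ⧸ (BB m r).addSubgroupOf (NN m r)) := Quotient.finite _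
  infer_instance

lemma card_BB_le : Nat.card (BB m r) ≤ 2 * Nat.card (mulP 2 (NN m r)) := by
  classical
  have hsurj : Function.Surjective (fun p : Fin 2 × mulP 2 (NN m r) =>
      (⟨(p.1 : ℕ) • gen m ∅ + p.2.1, by
        refine (BB m r).add_mem ?_ ((le_sup_left : _ ≤ BB m r) p.2.2)
        exact (BB m r).nsmul_mem ((le_sup_right : _ ≤ BB m r) (AddSubgroup.mem_zmultiples _)) _⟩ :
        BB m r)) := by
    rintro ⟨x, hx⟩
    obtain ⟨y, hy, z, hz, rfl⟩ := AddSubgroup.mem_sup.mp hx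
    obtain ⟨n, rfl⟩ := AddSubgroup.mem_zmultiples_iff.mp hz
    have h2g : (2 : ℕ) • gen m ∅ ∈ mulP 2 (NN m r) := ⟨gen m ∅, gen_mem ∅, rfl⟩
    have hmod : ∃ q : ℤ, ∃ e : Fin 2, n = 2 * q + (e : ℕ) := by
      rcases Int.emod_two_eq_zero_or_one n with h | h
      · exact ⟨n / 2, 0, by simp; omega⟩
      · exact ⟨n / 2, 1, by simp; omega⟩
    obtain ⟨q, e, rfl⟩ := hmod
    refine ⟨(e, ⟨y + (2 * q) • gen m ∅, ?_⟩), ?_⟩
    · apply AddSubgroup.add_mem _ hy
      have : (2 * q) • gen m (∅ : Finset (Fin r)) = q • ((2 : ℕ) • gen m ∅) := by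
        rw [mul_comm, mul_smul]
        norm_cast
      rw [this]
      exact AddSubgroup.zsmul_mem _ h2g q
    · apply Subtype.ext
      simp only
      rw [add_smul, natCast_zsmul]
      abel
  have := Nat.card_le_card_of_surjective _ hsurj
  rwa [Nat.card_prod, Nat.card_eq_fintype_card (α := Fin 2), Fintype.card_fin] at this

lemma card_EE_ge : 2 ^ r * Nat.card (tors (NN m r)) ≤ 2 * Nat.card (EE m r) := by
  rw [Nat.card_prod, card_CC]
  have h1 : Nat.card (NN m r) = Nat.card (BB m r) * (BB m r).relIndex (NN m r) :=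
    mul_relIndex BB_le_NN
  have h2 : Nat.card (NN m r ⧸ (BB m r).addSubgroupOf (NN m r)) =
    (BB m r).relIndex (NN m r) := rfl
  have h3 := card_eq_tors (NN m r)
  have h4 := card_BB_le (m := m) (r := r)
  have h5 : 0 < Nat.card (mulP 2 (NN m r)) := Nat.card_pos
  rw [h2]
  set k := (BB m r).relIndex (NN m r)
  have h6 : Nat.card (tors (NN m r)) ≤ 2 * k := by
    have : Nat.card (mulP 2 (NN m r)) * Nat.card (tors (NN m r)) ≤
        Nat.card (mulP 2 (NN m r)) * (2 * k) := by
      rw [← h3, h1]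
      calc Nat.card (BB m r) * k ≤ (2 * Nat.card (mulP 2 (NN m r))) * k :=
            Nat.mul_le_mul_right _ h4
        _ = _ := by ring
    exact Nat.le_of_mul_le_mul_left this h5
  calc 2 ^ r * Nat.card (tors (NN m r)) ≤ 2 ^ r * (2 * k) := Nat.mul_le_mul_left _ h6
    _ = _ := by ring

/-- `Gs` is `d`-maximal. -/
theorem dmax (hm : 1 ≤ m) (hr : m + 1 ≤ r) (H : Subgroup (WW m r)) (hH : H < Gs m r) :
    ∃ s : Finset (WW m r), Subgroup.closure (s : Set (WW m r)) = H ∧
      ∀ t : Finset (WW m r), Subgroup.closure (t : Set (WW m r)) = Gs m r → s.card < t.card := by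
  obtain ⟨s, hs, hcard⟩ := exists_gen (isPGroup_WW.to_subgroup H)
  refine ⟨s, hs, ?_⟩
  intro t ht
  have h1 := main_ineq hm hr hH
  have h2 := card_rad_le H
  have h3 : Nat.card (EE m r) ≤ 2 ^ t.card :=
    card_le_of_closure (E := EE m r) EE_add_self (phi m r) phi_surjective t ht
  have h4 := card_EE_ge (m := m) (r := r)
  rw [card_H H] at hcard
  have h5 : 0 < Nat.card (rad (C1 H) (N1 H)) := Nat.card_pos
  have h6 : 2 ^ s.card * Nat.card (rad (C1 H) (N1 H)) ≤ Nat.card (C1 H) * Nat.card (N1 H) :=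
    (Nat.mul_le_mul_left _ h2).trans hcard
  have h7 : 2 ^ s.card < 2 ^ t.card := by
    have h8 : Nat.card (rad (C1 H) (N1 H)) * (2 * 2 ^ s.card) <
        Nat.card (rad (C1 H) (N1 H)) * (2 * 2 ^ t.card) := by
      calc Nat.card (rad (C1 H) (N1 H)) * (2 * 2 ^ s.card) =
          2 * (2 ^ s.card * Nat.card (rad (C1 H) (N1 H))) := by ring
        _ ≤ 2 * (Nat.card (C1 H) * Nat.card (N1 H)) := Nat.mul_le_mul_left _ h6
        _ < 2 ^ r * Nat.card (tors (NN m r)) * Nat.card (rad (C1 H) (N1 H)) := h1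
        _ ≤ 2 * Nat.card (EE m r) * Nat.card (rad (C1 H) (N1 H)) := Nat.mul_le_mul_right _ h4
        _ ≤ 2 * 2 ^ t.card * Nat.card (rad (C1 H) (N1 H)) :=
          Nat.mul_le_mul_right _ (Nat.mul_le_mul_left _ h3)
        _ = _ := by ring
    have := Nat.lt_of_mul_lt_mul_left h8
    omega
  exact (Nat.pow_lt_pow_iff_right (by norm_num)).mp h7

/-- The lower central series of `Gs`. -/
lemma top_mem_lcs (hm : 1 ≤ m) (hr : m + 1 ≤ r) (k : ℕ) (hk : k ≤ m) :
    ∀ I : Finset (Fin r), I.card ≤ m - k →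
      inl (top m I) ∈ (Gs m r).lowerCentralSeries k := by
  induction k with
  | zero =>
    intro I hI
    exact top_mem_NN hm (by omega)
  | succ k ih =>
    intro I hI
    have hne : ∃ i, i ∉ I := by
      by_contra hcon
      push Not at hcon
      have h1 : I = Finset.univ := Finset.eq_univ_iff_forall.mpr hcon
      rw [h1, Finset.card_univ, Fintype.card_fin] at hI
      omega
    obtain ⟨i, hi⟩ := hne
    have h1 := ih (by omega) (insert i I) (by rw [Finset.card_insert_of_notMem hi]; omega)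
    have h2 : (⟨0, ee i⟩ : WW m r) ∈ Gs m r := (NN m r).zero_mem
    rw [Subgroup.lowerCentralSeries_succ]
    have h3 := Subgroup.commutator_mem_commutator h1 h2
    rw [commutatorElement_def] at h3
    have h4 : inl (top m I) = (inl (top m (insert i I)) * (⟨0, ee i⟩ : WW m r) *
        (inl (top m (insert i I)))⁻¹ * (⟨0, ee i⟩ : WW m r)⁻¹)⁻¹ := by
      have h5 := comm_inl (⟨0, ee i⟩ : WW m r) (top m (insert i I))
      simp only at h5
      rw [tr_ee_top hm hi] at h5
      rw [← h5]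
      group
    rw [h4]
    exact Subgroup.inv_mem _ h3

lemma lcs_ne_bot (hm : 1 ≤ m) (hr : m + 1 ≤ r) : (Gs m r).lowerCentralSeries m ≠ ⊥ := by
  intro h
  have h1 := top_mem_lcs hm hr m le_rfl ∅ (by simp)
  rw [h, Subgroup.mem_bot] at h1
  exact top_empty_ne (r := r) hm (congrArg WW.f h1)

/-- Transfer of the construction to permutation groups. -/
theorem main (c : ℕ) : ∃ n : ℕ, ∃ P : Subgroup (Equiv.Perm (Fin n)),
      IsPGroup 2 P ∧
      (∀ H : Subgroup (Equiv.Perm (Fin n)), H < P →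
        ∃ s : Finset (Equiv.Perm (Fin n)),
          Subgroup.closure (↑s : Set (Equiv.Perm (Fin n))) = H ∧
          ∀ t : Finset (Equiv.Perm (Fin n)),
            Subgroup.closure (↑t : Set (Equiv.Perm (Fin n))) = P → s.card < t.card) ∧
      Subgroup.lowerCentralSeries P c ≠ ⊥ := by
  classical
  set m := c + 1 with hmdef
  set r := m + 1 with hrdef
  have hm : 1 ≤ m := by omega
  have hr : m + 1 ≤ r := le_rfl
  let e : WW m r ≃ Fin (Nat.card (WW m r)) := Finite.equivFin _
  let ψ : WW m r →* Equiv.Perm (Fin (Nat.card (WW m r))) :=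
    (e.permCongrHom.toMonoidHom).comp (MulAction.toPermHom (WW m r) (WW m r))
  have hψ : Function.Injective ψ :=
    e.permCongrHom.injective.comp MulAction.toPerm_injective
  refine ⟨Nat.card (WW m r), (Gs m r).map ψ, ?_, ?_, ?_⟩
  · exact (isPGroup_WW.to_subgroup (Gs m r)).map ψ
  · intro H hH
    set K := H.comap ψ with hK
    have hKH : K.map ψ = H := by
      rw [hK, Subgroup.map_comap_eq_self]
      exact hH.le.trans (by
        rintro _ ⟨x, _, rfl⟩
        exact ⟨x, rfl⟩)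
    have hKlt : K < Gs m r := by
      rw [← hKH] at hH
      exact (Subgroup.map_lt_map_iff_of_injective hψ).mp hH
    obtain ⟨s, hs, hst⟩ := dmax hm hr K hKlt
    refine ⟨s.image ψ, ?_, ?_⟩
    · rw [Finset.coe_image, ← MonoidHom.map_closure, hs, hKH]
    · intro t ht
      have htr : ∀ x ∈ t, ∃ y, ψ y = x := by
        intro x hx
        have : x ∈ (Gs m r).map ψ := by
          rw [← ht]
          exact Subgroup.subset_closure hx
        obtain ⟨y, _, rfl⟩ := this
        exact ⟨y, rfl⟩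
      set t' := t.preimage ψ hψ.injOn with ht'
      have himg : t'.image ψ = t := by
        rw [ht', Finset.image_preimage]
        apply Finset.filter_true_of_mem
        intro x hx
        obtain ⟨y, rfl⟩ := htr x hx
        exact ⟨y, rfl⟩
      have h1 : Subgroup.closure (t' : Set (WW m r)) = Gs m r := by
        apply Subgroup.map_injective hψ
        rw [MonoidHom.map_closure, ← Finset.coe_image, himg, ht]
      have h2 := hst t' h1
      have h3 : t.card = t'.card := by
        rw [← himg, Finset.card_image_of_injective _ hψ]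
      rw [Finset.card_image_of_injective _ hψ, h3]
      exact h2
  · intro h
    rw [← Subgroup.map_lowerCentralSeries, Subgroup.map_eq_bot_iff_of_injective _ hψ] at h
    apply lcs_ne_bot (m := m) (r := r) hm hr
    rw [eq_bot_iff, ← h]
    exact (Gs m r).lowerCentralSeries_antitone (by omega)

end Pool.Agent.H41.DMax
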