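import Pool.Agent.helper41.DMax.Poly

/-!
The combinatorial core: submodules of `N` needing many generators.
-/

set_option autoImplicit false

namespace Pool.Agent.H41.DMax

variable {m r : ℕ}

/-- multiplication by `n` of a subgroup -/
def mulP (n : ℕ) (Y : AddSubgroup (MM m r)) : AddSubgroup (MM m r) :=
  Y.map (nsmulAddMonoidHom (α := MM m r) n)

lemma mem_mulP {n : ℕ} {Y : AddSubgroup (MM m r)} {x : MM m r} :
    x ∈ mulP n Y ↔ ∃ y ∈ Y, n • y = x := Iff.rfl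

/-- `2Y` together with all differences `τ_c f - f`. -/
def rad (D : AddSubgroup (CC r)) (Y : AddSubgroup (MM m r)) : AddSubgroup (MM m r) :=
  mulP 2 Y ⊔ AddSubgroup.closure {x | ∃ c ∈ D, ∃ f ∈ Y, x = tr c f - f}

lemma mulP_le_rad (D : AddSubgroup (CC r)) (Y : AddSubgroup (MM m r)) : mulP 2 Y ≤ rad D Y :=
  le_sup_left

lemma diff_mem_rad {D : AddSubgroup (CC r)} {Y : AddSubgroup (MM m r)} {c : CC r} (hc : c ∈ D)
    {f : MM m r} (hf : f ∈ Y) : tr c f - f ∈ rad D Y :=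
  (le_sup_right : _ ≤ rad D Y) (AddSubgroup.subset_closure ⟨c, hc, f, hf, rfl⟩)

lemma rad_le {D : AddSubgroup (CC r)} {Y : AddSubgroup (MM m r)}
    (hinv : ∀ c ∈ D, ∀ f ∈ Y, tr c f ∈ Y) : rad D Y ≤ Y := by
  refine sup_le ?_ ?_
  · rintro _ ⟨f, hf, rfl⟩
    exact AddSubgroup.nsmul_mem _ hf 2
  · rw [AddSubgroup.closure_le]
    rintro _ ⟨c, hc, f, hf, rfl⟩
    exact AddSubgroup.sub_mem _ (hinv c hc f hf) hf

lemma exists_two_notMem {J : Finset (Fin r)} {t : ℕ} (hJ : J.card + 2 ≤ r) :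
    ∃ i j : Fin r, i ∉ J ∧ j ∉ J ∧ i ≠ j := by
  have h1 : 1 < (Finset.univ \ J).card := by
    rw [Finset.card_sdiff_of_subset (Finset.subset_univ J)]
    simp
    omega
  obtain ⟨i, hi, j, hj, hij⟩ := Finset.one_lt_card.mp h1
  exact ⟨i, j, by simpa using hi, by simpa using hj, hij⟩

lemma top_empty_ne (hm : 1 ≤ m) : top m (∅ : Finset (Fin r)) ≠ 0 := by
  intro h
  have h1 := congrFun h 0
  simp only [top, Pi.smul_apply, mon, Finset.prod_empty, Pi.zero_apply] at h1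
  rw [nsmul_eq_mul, mul_one, ZMod.natCast_eq_zero_iff] at h1
  have h2 := Nat.le_of_dvd (by positivity) h1
  have h3 : 2 ^ (m - 1) < 2 ^ m := Nat.pow_lt_pow_right (by norm_num) (by omega)
  omega

/-- the derivative lemma for subgroups of index at most two -/
lemma RM_step_full (hm : 1 ≤ m) (X Z : AddSubgroup (MM m r)) {t : ℕ} (ht : 1 ≤ t)
    (htr : t + 1 ≤ r)
    (hX : ∀ u ∈ RM m r t, ∀ v ∈ RM m r t, u ∈ X ∨ v ∈ X ∨ u - v ∈ X)
    (hZ : ∀ x ∈ X, x ∈ RM m r t → ∀ i, tr (ee i) x - x ∈ Z) : RM m r (t - 1) ≤ Z := by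
  rw [RM, AddSubgroup.closure_le]
  rintro f ⟨J, hJ, rfl⟩
  obtain ⟨i, j, hi, hj, hij⟩ := exists_two_notMem (t := t) (J := J) (r := r) (by omega)
  have hui : top m (insert i J) ∈ RM m r t :=
    top_mem_RM (by rw [Finset.card_insert_of_notMem hi]; omega)
  have huj : top m (insert j J) ∈ RM m r t :=
    top_mem_RM (by rw [Finset.card_insert_of_notMem hj]; omega)
  rcases hX _ hui _ huj with h | h | h
  · have := hZ _ h hui i
    rwa [tr_ee_top hm hi] at this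
  · have := hZ _ h huj j
    rwa [tr_ee_top hm hj] at this
  · have := hZ _ h (AddSubgroup.sub_mem _ hui huj) i
    rw [map_sub, tr_ee_top_notMem (J := insert j J) (i := i) (by simp [hi, hij])] at this
    have h2 : tr (ee i) (top m (insert i J)) - top m (insert j J) -
        (top m (insert i J) - top m (insert j J)) =
        tr (ee i) (top m (insert i J)) - top m (insert i J) := by abel
    rw [h2, tr_ee_top hm hi] at this
    exact this

/-- the derivative lemma for a group of translations of index at most two -/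
lemma RM_step_hyper (hm : 1 ≤ m) (D : AddSubgroup (CC r))
    (hD : ∀ c d : CC r, c ∈ D ∨ d ∈ D ∨ c + d ∈ D) (Z : AddSubgroup (MM m r)) {t : ℕ}
    (ht : 1 ≤ t) (htr : t + 1 ≤ r)
    (hZ : ∀ x ∈ RM m r t, ∀ c ∈ D, tr c x - x ∈ Z) : RM m r (t - 1) ≤ Z := by
  rw [RM, AddSubgroup.closure_le]
  rintro f ⟨J, hJ, rfl⟩
  obtain ⟨i, j, hi, hj, hij⟩ := exists_two_notMem (t := t) (J := J) (r := r) (by omega)
  have hui : top m (insert i J) ∈ RM m r t :=
    top_mem_RM (by rw [Finset.card_insert_of_notMem hi]; omega)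
  have huj : top m (insert j J) ∈ RM m r t :=
    top_mem_RM (by rw [Finset.card_insert_of_notMem hj]; omega)
  rcases hD (ee i) (ee j) with h | h | h
  · have := hZ _ hui _ h
    rwa [tr_ee_top hm hi] at this
  · have := hZ _ huj _ h
    rwa [tr_ee_top hm hj] at this
  · have := hZ _ hui _ h
    rwa [ee_add_tr_top hm hi hj hij] at this

lemma step (hm : 1 ≤ m) (hr : m + 1 ≤ r) (D : AddSubgroup (CC r))
    (hD : ∀ c d : CC r, c ∈ D ∨ d ∈ D ∨ c + d ∈ D) (Y : AddSubgroup (MM m r))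
    (hrad : rad D Y ≤ mulP 2 Y) {j : ℕ} (hj : j + 1 ≤ m) (h : RM m r (m - j) ≤ mulP (2 ^ j) Y) :
    RM m r (m - (j + 1)) ≤ mulP (2 ^ (j + 1)) Y := by
  have h1 : m - (j + 1) = (m - j) - 1 := by omega
  rw [h1]
  apply RM_step_hyper hm D hD _ (by omega) (by omega)
  intro x hx c hc
  obtain ⟨y, hy, rfl⟩ := h hx
  obtain ⟨g, hg, hgy⟩ := hrad (diff_mem_rad hc hy)
  refine ⟨g, hg, ?_⟩
  change (2 ^ (j + 1) : ℕ) • g = tr c ((2 ^ j : ℕ) • y) - (2 ^ j : ℕ) • y
  rw [map_nsmul, ← smul_sub, ← hgy]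
  change _ = (2 ^ j : ℕ) • ((2 : ℕ) • g)
  rw [smul_smul, pow_succ]

lemma finish (hm : 1 ≤ m) (Y : AddSubgroup (MM m r)) (h : RM m r 0 ≤ mulP (2 ^ m) Y) : False := by
  obtain ⟨y, hy, hyt⟩ := h (top_mem_RM (m := m) (r := r) (I := ∅) (by simp))
  apply top_empty_ne (r := r) hm
  rw [← hyt]
  exact two_pow_nsmul y

lemma descend (hm : 1 ≤ m) (hr : m + 1 ≤ r) (D : AddSubgroup (CC r))
    (hD : ∀ c d : CC r, c ∈ D ∨ d ∈ D ∨ c + d ∈ D) (Y : AddSubgroup (MM m r))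
    (hrad : rad D Y ≤ mulP 2 Y) {j₀ : ℕ} (h0 : RM m r (m - j₀) ≤ mulP (2 ^ j₀) Y)
    (hj₀ : j₀ ≤ m) : False := by
  have key : ∀ k, j₀ + k ≤ m → RM m r (m - (j₀ + k)) ≤ mulP (2 ^ (j₀ + k)) Y := by
    intro k
    induction k with
    | zero => intro _; exact h0
    | succ k ih =>
      intro hk
      exact step hm hr D hD Y hrad (j := j₀ + k) (by omega) (ih (by omega))
  have h1 := key (m - j₀) (by omega)
  have h2 : j₀ + (m - j₀) = m := by omega
  rw [h2, Nat.sub_self] at h1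
  exact finish hm Y h1

lemma RM_le_of_torsion (hm : 1 ≤ m) (Y : AddSubgroup (MM m r))
    (htor : ∀ f ∈ NN m r, (2 : ℕ) • f = 0 → f ∈ Y) : RM m r (m - 0) ≤ mulP (2 ^ 0) Y := by
  intro f hf
  refine ⟨f, htor f (RM_le_NN hm hf) (two_nsmul_RM hm hf), ?_⟩
  change (2 ^ 0 : ℕ) • f = f
  simp

/-- Case of a translation group of index at most two, with full torsion and trivial action
modulo `2`. -/
theorem core_a (hm : 1 ≤ m) (hr : m + 1 ≤ r) (D : AddSubgroup (CC r))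
    (hD : ∀ c d : CC r, c ∈ D ∨ d ∈ D ∨ c + d ∈ D) (Y : AddSubgroup (MM m r))
    (htor : ∀ f ∈ NN m r, (2 : ℕ) • f = 0 → f ∈ Y)
    (hrad : rad D Y ≤ mulP 2 Y) : False :=
  descend hm hr D hD Y hrad (j₀ := 0) (RM_le_of_torsion hm Y htor) (by omega)

/-- Case of torsion of index at most two, and trivial action modulo `2`. -/
theorem core_b1 (hm : 1 ≤ m) (hr : m + 1 ≤ r) (Y : AddSubgroup (MM m r))
    (htor : ∀ u ∈ RM m r m, ∀ v ∈ RM m r m, u ∈ Y ∨ v ∈ Y ∨ u - v ∈ Y)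
    (hrad : rad ⊤ Y ≤ mulP 2 Y) : False := by
  have h1 : RM m r (m - 1) ≤ mulP (2 ^ 1) Y := by
    apply RM_step_full hm Y _ hm hr htor
    intro x hx _ i
    have := hrad (diff_mem_rad (D := ⊤) (c := ee i) trivial hx)
    rwa [pow_one]
  exact descend hm hr ⊤ (fun _ _ => Or.inl trivial) Y hrad h1 hm

/-- Case of full torsion, and nearly trivial action modulo `2`. -/
theorem core_b2 (hm : 1 ≤ m) (hr : m + 1 ≤ r) (Y : AddSubgroup (MM m r)) (hYN : Y ≤ NN m r)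
    (htor : ∀ f ∈ NN m r, (2 : ℕ) • f = 0 → f ∈ Y)
    (hrad : ∀ a ∈ rad ⊤ Y, ∀ b ∈ rad ⊤ Y, a ∈ mulP 2 Y ∨ b ∈ mulP 2 Y ∨ a - b ∈ mulP 2 Y) :
    NN m r ≤ Y := by
  -- the intermediate claims
  have hA : ∀ j, j ≤ m - 1 →
      (∀ u ∈ RM m r (m - j), ∀ v ∈ RM m r (m - j),
        u ∈ mulP (2 ^ j) Y ∨ v ∈ mulP (2 ^ j) Y ∨ u - v ∈ mulP (2 ^ j) Y) ∧
      RM m r (m - j - 1) ≤ mulP (2 ^ j) (rad ⊤ Y) := by
    intro j
    induction j with
    | zero =>
      intro _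
      have h0 : ∀ u ∈ RM m r (m - 0), ∀ v ∈ RM m r (m - 0),
        u ∈ mulP (2 ^ 0) Y ∨ v ∈ mulP (2 ^ 0) Y ∨ u - v ∈ mulP (2 ^ 0) Y :=
        fun u hu _ _ => Or.inl (RM_le_of_torsion hm Y htor hu)
      refine ⟨h0, ?_⟩
      apply RM_step_full hm _ _ (by omega) (by omega) h0
      rintro _ ⟨y, hy, rfl⟩ _ i
      refine ⟨tr (ee i) y - y, diff_mem_rad (D := ⊤) (c := ee i) trivial hy, ?_⟩
      change (2 ^ 0 : ℕ) • (tr (ee i) y - y) = tr (ee i) ((2 ^ 0 : ℕ) • y) - (2 ^ 0 : ℕ) • y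
      rw [map_nsmul, smul_sub]
    | succ j ih =>
      intro hj
      obtain ⟨_, h2⟩ := ih (by omega)
      have h1' : ∀ u ∈ RM m r (m - (j + 1)), ∀ v ∈ RM m r (m - (j + 1)),
        u ∈ mulP (2 ^ (j + 1)) Y ∨ v ∈ mulP (2 ^ (j + 1)) Y ∨ u - v ∈ mulP (2 ^ (j + 1)) Y := by
        intro u hu v hv
        have e1 : m - (j + 1) = m - j - 1 := by omega
        rw [e1] at hu hv
        obtain ⟨a, ha, rfl⟩ := h2 hu
        obtain ⟨b, hb, rfl⟩ := h2 hv
        rcases hrad a ha b hb with ⟨y, hy, h⟩ | ⟨y, hy, h⟩ | ⟨y, hy, h⟩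
        · left
          refine ⟨y, hy, ?_⟩
          change (2 ^ (j + 1) : ℕ) • y = (2 ^ j : ℕ) • a
          rw [← h]
          change _ = (2 ^ j : ℕ) • ((2 : ℕ) • y)
          rw [smul_smul, pow_succ]
        · right; left
          refine ⟨y, hy, ?_⟩
          change (2 ^ (j + 1) : ℕ) • y = (2 ^ j : ℕ) • b
          rw [← h]
          change _ = (2 ^ j : ℕ) • ((2 : ℕ) • y)
          rw [smul_smul, pow_succ]
        · right; right
          refine ⟨y, hy, ?_⟩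
          change (2 ^ (j + 1) : ℕ) • y = (2 ^ j : ℕ) • a - (2 ^ j : ℕ) • b
          rw [← smul_sub, ← h]
          change _ = (2 ^ j : ℕ) • ((2 : ℕ) • y)
          rw [smul_smul, pow_succ]
      refine ⟨h1', ?_⟩
      apply RM_step_full hm _ _ (by omega) (by omega) h1'
      rintro _ ⟨y, hy, rfl⟩ _ i
      refine ⟨tr (ee i) y - y, diff_mem_rad (D := ⊤) (c := ee i) trivial hy, ?_⟩
      change (2 ^ (j + 1) : ℕ) • (tr (ee i) y - y) =
        tr (ee i) ((2 ^ (j + 1) : ℕ) • y) - (2 ^ (j + 1) : ℕ) • y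
      rw [map_nsmul, smul_sub]
  -- an element `a` of the radical with `2^(m-1) a ≠ 0`
  obtain ⟨a, ha, hat⟩ : ∃ a ∈ rad ⊤ Y, (2 ^ (m - 1) : ℕ) • a = top m (∅ : Finset (Fin r)) := by
    have h1 := (hA (m - 1) le_rfl).2
    have h2 : top m (∅ : Finset (Fin r)) ∈ RM m r (m - (m - 1) - 1) := top_mem_RM (by simp)
    obtain ⟨a, ha, h⟩ := h1 h2
    exact ⟨a, ha, h⟩
  have hane : (2 ^ (m - 1) : ℕ) • a ≠ 0 := by rw [hat]; exact top_empty_ne hm
  have ha2 : a ∉ mulP 2 Y := by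
    rintro ⟨y, hy, rfl⟩
    apply hane
    change (2 ^ (m - 1) : ℕ) • ((2 : ℕ) • y) = 0
    rw [smul_smul, ← pow_succ, Nat.sub_add_cancel hm]
    exact two_pow_nsmul y
  have hB : ∀ i, i ≤ m - 1 → RM m r (m - i) ≤ mulP (2 ^ i) Y := by
    intro i hi
    rcases i with _ | j
    · exact RM_le_of_torsion hm Y htor
    · have h2 := (hA j (by omega)).2
      have e1 : m - (j + 1) = m - j - 1 := by omega
      rw [e1]
      intro u hu
      obtain ⟨b, hb, hbu⟩ := h2 hu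
      change (2 ^ j : ℕ) • b = u at hbu
      have hu2 : (2 : ℕ) • u = 0 := two_nsmul_RM hm hu
      rcases hrad a ha b hb with h | ⟨y, hy, h⟩ | ⟨y, hy, h⟩
      · exact absurd h ha2
      · refine ⟨y, hy, ?_⟩
        change (2 ^ (j + 1) : ℕ) • y = u
        rw [← hbu, ← h]
        change _ = (2 ^ j : ℕ) • ((2 : ℕ) • y)
        rw [smul_smul, pow_succ]
      · exfalso
        change (2 : ℕ) • y = a - b at h
        apply hane
        have h3 : (2 ^ (m - 1) : ℕ) • (a - b) = 0 := by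
          rw [← h, smul_smul, ← pow_succ, Nat.sub_add_cancel hm]
          exact two_pow_nsmul y
        have h4 : (2 ^ (m - 1) : ℕ) • b = 0 := by
          have e2 : 2 ^ (m - 1) = 2 ^ (m - 1 - (j + 1)) * (2 * 2 ^ j) := by
            rw [← pow_succ', ← pow_add]
            congr 1
            omega
          rw [e2, mul_smul, mul_smul, hbu, hu2, smul_zero]
        rw [smul_sub, h4, sub_zero] at h3
        exact h3
  -- conclusion
  have hC : ∀ i, i ≤ m → ∀ w ∈ NN m r, (2 ^ i : ℕ) • w = 0 → w ∈ Y := by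
    intro i
    induction i with
    | zero =>
      intro _ w _ h
      simp only [pow_zero, one_smul] at h
      rw [h]
      exact Y.zero_mem
    | succ i ih =>
      intro hi w hw h
      have h1 := torsion_mem_RM hm hw (i := i) (by omega) h
      obtain ⟨y, hy, hyw⟩ := hB i (by omega) h1
      change (2 ^ i : ℕ) • y = (2 ^ i : ℕ) • w at hyw
      have h2 : w - y ∈ Y := by
        apply ih (by omega) _ (AddSubgroup.sub_mem _ hw (hYN hy))
        rw [smul_sub, hyw, sub_self]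
      have h3 : w = (w - y) + y := by abel
      rw [h3]
      exact AddSubgroup.add_mem _ h2 hy
  intro w hw
  exact hC m le_rfl w hw (two_pow_nsmul w)

end Pool.Agent.H41.DMax
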