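import Mathlib

/-!
General facts on generating sets of finite `2`-groups.
-/

set_option autoImplicit false

namespace Pool.Agent.H41.DMax

open Subgroup

variable {W : Type*} [Group W]

/-- The subgroup generated by the squares of the elements of `H`. -/
def Sq (H : Subgroup W) : Subgroup W := Subgroup.closure {x | ∃ h ∈ H, x = h ^ 2}

lemma sq_mem_Sq {H : Subgroup W} {h : W} (hh : h ∈ H) : h ^ 2 ∈ Sq H :=
  Subgroup.subset_closure ⟨h, hh, rfl⟩

lemma Sq_le (H : Subgroup W) : Sq H ≤ H := by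
  rw [Sq, Subgroup.closure_le]
  rintro x ⟨h, hh, rfl⟩
  exact H.pow_mem hh 2

/-- Commutators are products of squares. -/
lemma comm_mem_Sq {H : Subgroup W} {a b : W} (ha : a ∈ H) (hb : b ∈ H) :
    a * b * a⁻¹ * b⁻¹ ∈ Sq H := by
  have h1 : a * b * a⁻¹ * b⁻¹ = (a * b) ^ 2 * ((b⁻¹ * a⁻¹ * b) ^ 2 * (b⁻¹) ^ 2) := by
    simp only [pow_two, mul_assoc, mul_inv_cancel_left, inv_mul_cancel_left]
  rw [h1]
  refine (Sq H).mul_mem (sq_mem_Sq (H.mul_mem ha hb)) ((Sq H).mul_mem (sq_mem_Sq ?_) (sq_mem_Sq ?_))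
  · exact H.mul_mem (H.mul_mem (H.inv_mem hb) (H.inv_mem ha)) hb
  · exact H.inv_mem hb

/-- In a finite `2`-group, the squares are non-generators. -/
lemma burnside_aux {G : Type*} [Group G] [Finite G] (hG : IsPGroup 2 G) (K B : Subgroup G)
    (hB : ∀ M : Subgroup G, (∀ g : G, g ^ 2 ∈ M) → B ≤ M) (h : K ⊔ B = ⊤) : K = ⊤ := by
  by_contra hK
  haveI : Fact (Nat.Prime 2) := ⟨Nat.prime_two⟩
  obtain ⟨N, hN⟩ := IsPGroup.iff_card.mp hG
  obtain ⟨n, hn⟩ := IsPGroup.iff_card.mp (hG.to_subgroup K)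
  have hlt : n < N := by
    by_contra hge
    push Not at hge
    apply hK
    apply Subgroup.eq_top_of_card_eq
    apply le_antisymm (Subgroup.card_le_card_group K)
    rw [hn, hN]
    exact Nat.pow_le_pow_right (by norm_num) hge
  obtain ⟨M, hM, hKM⟩ := Sylow.exists_subgroup_card_pow_prime_le (p := 2) (n := n) (m := N - 1)
    (by rw [hN]; exact pow_dvd_pow _ (Nat.sub_le _ _)) K hn (by omega)
  have hidx : M.index = 2 := by
    have h1 := M.card_mul_index
    rw [hM, hN] at h1
    have h2 : 2 ^ N = 2 ^ (N - 1) * 2 := by rw [← pow_succ]; congr 1; omega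
    rw [h2] at h1
    exact Nat.eq_of_mul_eq_mul_left (by positivity) h1
  have hBM : B ≤ M := hB M (fun g => Subgroup.sq_mem_of_index_two hidx g)
  have : (⊤ : Subgroup G) ≤ M := h ▸ sup_le hKM hBM
  have hMt : M = ⊤ := top_le_iff.mp this
  rw [hMt, Subgroup.index_top] at hidx
  omega

/-- Burnside: if `H` is a finite `2`-group, `K ≤ H` and `K` together with the squares of `H`
generates `H`, then `K = H`. -/
lemma burnside [Finite W] {H K : Subgroup W} (hH : IsPGroup 2 H) (hK : K ≤ H)
    (h : H ≤ K ⊔ Sq H) : K = H := by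
  have h1 : (K.subgroupOf H) = ⊤ := by
    apply burnside_aux hH (K.subgroupOf H) ((Sq H).subgroupOf H)
    · intro M hM x hx
      have hx' : (x : W) ∈ Sq H := hx
      have hle : Sq H ≤ M.map H.subtype := by
        rw [Sq, Subgroup.closure_le]
        rintro y ⟨z, hz, rfl⟩
        exact ⟨⟨z, hz⟩ ^ 2, hM ⟨z, hz⟩, rfl⟩
      obtain ⟨y, hy, hyx⟩ := hle hx'
      have : y = x := Subtype.ext hyx
      rwa [this] at hy
    · rw [← Subgroup.subgroupOf_sup hK (Sq_le H)]
      exact Subgroup.subgroupOf_eq_top.mpr h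
  exact le_antisymm hK (Subgroup.subgroupOf_eq_top.mp h1)

/-- Existence of small generating sets modulo a subgroup. -/
lemma exists_gen_mod [Finite W] (H B : Subgroup W) (hB : B ≤ H) :
    ∃ s : Finset W, (∀ x ∈ s, x ∈ H) ∧ H ≤ Subgroup.closure (s : Set W) ⊔ B ∧
      2 ^ s.card * Nat.card B ≤ Nat.card H := by
  classical
  -- the possible cardinalities
  let P : ℕ → Prop := fun k => ∃ s : Finset W, (∀ x ∈ s, x ∈ H) ∧ s.card = k ∧
    2 ^ s.card * Nat.card B ≤ Nat.card (Subgroup.closure (s : Set W) ⊔ B : Subgroup W)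
  have hP0 : P 0 := ⟨∅, by simp, rfl, by simp⟩
  have hbd : ∀ k, P k → k ≤ Nat.card W := by
    rintro k ⟨s, -, hk, hs⟩
    have h1 : Nat.card (Subgroup.closure (s : Set W) ⊔ B : Subgroup W) ≤ Nat.card W :=
      Subgroup.card_le_card_group _
    have h2 : 0 < Nat.card B := Nat.card_pos
    have h3 : k < 2 ^ k := Nat.lt_two_pow_self
    have h4 : 2 ^ s.card ≤ 2 ^ s.card * Nat.card B := Nat.le_mul_of_pos_right _ h2
    rw [hk] at h4 hs
    omega
  obtain ⟨k, hk, hmax⟩ : ∃ k, P k ∧ ∀ j, P j → j ≤ k := by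
    refine ⟨Nat.findGreatest P (Nat.card W), ?_, ?_⟩
    · exact Nat.findGreatest_spec (P := P) (Nat.zero_le _) hP0
    · intro j hj
      exact Nat.le_findGreatest (hbd j hj) hj
  obtain ⟨s, hsH, hsk, hs⟩ := hk
  have hle : Subgroup.closure (s : Set W) ⊔ B ≤ H :=
    sup_le ((Subgroup.closure_le _).mpr hsH) hB
  refine ⟨s, hsH, ?_, hs.trans (Subgroup.card_le_of_le hle)⟩
  by_contra hnot
  obtain ⟨g, hgH, hg⟩ := Set.not_subset.mp hnot
  have hgs : g ∉ s := fun h => hg ((le_sup_left : Subgroup.closure (s : Set W) ≤ _ )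
    (Subgroup.subset_closure h))
  set K := Subgroup.closure (s : Set W) ⊔ B with hKdef
  set K' := Subgroup.closure ((insert g s : Finset W) : Set W) ⊔ B with hK'def
  have hKK' : K ≤ K' := by
    apply sup_le_sup_right
    apply Subgroup.closure_mono
    simp
  have hgK' : g ∈ K' := (le_sup_left : Subgroup.closure ((insert g s : Finset W) : Set W) ≤ _)
    (Subgroup.subset_closure (by simp))
  have hlt : K < K' := lt_of_le_of_ne hKK' (fun h => hg (h ▸ hgK'))
  have hcard : 2 * Nat.card K ≤ Nat.card K' := by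
    obtain ⟨q, hq⟩ := Subgroup.card_dvd_of_le hKK'
    have hK0 : 0 < Nat.card K := Nat.card_pos
    have hne : Nat.card K ≠ Nat.card K' := by
      intro h
      exact hlt.ne (Subgroup.eq_of_le_of_card_ge hKK' h.ge)
    have : 2 ≤ q := by
      have hK'0 : 0 < Nat.card K' := Nat.card_pos
      rcases q with _ | _ | q
      · simp only [mul_zero] at hq; omega
      · simp only [zero_add, mul_one] at hq; omega
      · omega
    rw [hq]
    nlinarith
  have hP' : P (k + 1) := by
    refine ⟨insert g s, ?_, ?_, ?_⟩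
    · intro x hx
      rcases Finset.mem_insert.mp hx with rfl | hx
      · exact hgH
      · exact hsH x hx
    · rw [Finset.card_insert_of_notMem hgs, hsk]
    · rw [Finset.card_insert_of_notMem hgs, pow_succ]
      calc 2 ^ s.card * 2 * Nat.card B = 2 * (2 ^ s.card * Nat.card B) := by ring
        _ ≤ 2 * Nat.card K := Nat.mul_le_mul_left _ hs
        _ ≤ Nat.card K' := hcard
  have := hmax _ hP'
  omega

/-- A finite `2`-group `H` has a generating set `s` with `2 ^ |s| * |Sq H| ≤ |H|`. -/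
lemma exists_gen [Finite W] {H : Subgroup W} (hH : IsPGroup 2 H) :
    ∃ s : Finset W, Subgroup.closure (s : Set W) = H ∧
      2 ^ s.card * Nat.card (Sq H) ≤ Nat.card H := by
  obtain ⟨s, hsH, hgen, hcard⟩ := exists_gen_mod H (Sq H) (Sq_le H)
  exact ⟨s, burnside hH ((Subgroup.closure_le _).mpr hsH) hgen, hcard⟩

/-- Lower bound for the number of generators from an elementary abelian quotient. -/
lemma card_le_of_closure {P : Subgroup W} {E : Type*} [AddCommGroup E] [Finite E]
    (hE : ∀ x : E, x + x = 0) (φ : P →* Multiplicative E) (hφ : Function.Surjective φ)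
    (t : Finset W) (ht : Subgroup.closure (t : Set W) = P) : Nat.card E ≤ 2 ^ t.card := by
  classical
  letI : Module (ZMod 2) E := AddCommGroup.zmodModule (n := 2) (fun x => by
    rw [two_nsmul]; exact hE x)
  have htP : ∀ x ∈ t, x ∈ P := fun x hx => ht ▸ Subgroup.subset_closure hx
  -- images of the generators
  let T : Finset E := t.attach.image (fun x => (φ ⟨x.1, htP x.1 x.2⟩).toAdd)
  have hT : T.card ≤ t.card := by
    refine Finset.card_image_le.trans ?_
    simp
  have hspan : Submodule.span (ZMod 2) (T : Set E) = ⊤ := by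
    rw [eq_top_iff]
    intro e _
    obtain ⟨p, hp⟩ := hφ (Multiplicative.ofAdd e)
    have key : ∀ w (hw : w ∈ Subgroup.closure (t : Set W)),
        (φ ⟨w, ht ▸ hw⟩).toAdd ∈ Submodule.span (ZMod 2) (T : Set E) := by
      intro w hw
      induction hw using Subgroup.closure_induction with
      | mem x hx =>
        apply Submodule.subset_span
        simp only [T, Finset.coe_image, Set.mem_image, Finset.mem_coe]
        exact ⟨⟨x, hx⟩, Finset.mem_attach _ _, rfl⟩
      | one =>
        have : (⟨1, ht ▸ Subgroup.one_mem _⟩ : P) = 1 := rfl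
        rw [this, map_one]
        exact Submodule.zero_mem _
      | mul x y hx hy ihx ihy =>
        have : (⟨x * y, ht ▸ Subgroup.mul_mem _ hx hy⟩ : P) = ⟨x, ht ▸ hx⟩ * ⟨y, ht ▸ hy⟩ := rfl
        rw [this, map_mul, toAdd_mul]
        exact Submodule.add_mem _ ihx ihy
      | inv x hx ih =>
        have : (⟨x⁻¹, ht ▸ Subgroup.inv_mem _ hx⟩ : P) = (⟨x, ht ▸ hx⟩)⁻¹ := rfl
        rw [this, map_inv, toAdd_inv]
        exact Submodule.neg_mem _ ih
    have hp1 : (p : W) ∈ Subgroup.closure (t : Set W) := by rw [ht]; exact p.2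
    have h1 := key p.1 hp1
    have h2 : (⟨p.1, ht ▸ hp1⟩ : P) = p := rfl
    rw [h2, hp, toAdd_ofAdd] at h1
    exact h1
  have hfin : Module.Finite (ZMod 2) E := Module.Finite.of_finite
  have hrank : Module.finrank (ZMod 2) E ≤ T.card := by
    have := finrank_span_finset_le_card (R := ZMod 2) T
    rw [Set.finrank, hspan, finrank_top] at this
    exact this
  have hcard : Nat.card E = 2 ^ Module.finrank (ZMod 2) E := by
    rw [Module.natCard_eq_pow_finrank (K := ZMod 2)]
    simp
  rw [hcard]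
  exact Nat.pow_le_pow_right (by norm_num) (hrank.trans hT)

end Pool.Agent.H41.DMax
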