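import Pool.Agent.helper41.DMax.Core
import Pool.Agent.helper41.DMax.Gen

/-!
The group `N ⋊ C` and the proof that it is `d`-maximal.
-/

set_option autoImplicit false

namespace Pool.Agent.H41.DMax

variable {m r : ℕ}

/-- The semidirect product of all functions with the translations. -/
@[ext] structure WW (m r : ℕ) where
  /-- the function part -/
  f : MM m r
  /-- the translation part -/
  c : CC r

namespace WW

instance : Mul (WW m r) := ⟨fun a b => ⟨a.f + tr a.c b.f, a.c + b.c⟩⟩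
instance : One (WW m r) := ⟨⟨0, 0⟩⟩
instance : Inv (WW m r) := ⟨fun a => ⟨-(tr (-a.c) a.f), -a.c⟩⟩

@[simp] lemma mul_f (a b : WW m r) : (a * b).f = a.f + tr a.c b.f := rfl
@[simp] lemma mul_c (a b : WW m r) : (a * b).c = a.c + b.c := rfl
@[simp] lemma one_f : (1 : WW m r).f = 0 := rfl
@[simp] lemma one_c : (1 : WW m r).c = 0 := rfl
@[simp] lemma inv_f (a : WW m r) : (a⁻¹).f = -(tr (-a.c) a.f) := rfl
@[simp] lemma inv_c (a : WW m r) : (a⁻¹).c = -a.c := rfl

instance : Group (WW m r) := Group.ofLeftAxioms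
  (by
    intro a b d
    apply WW.ext
    · simp only [mul_f, mul_c, map_add, tr_add, add_assoc]
    · simp only [mul_c, add_assoc])
  (by
    intro a
    apply WW.ext
    · simp
    · simp)
  (by
    intro a
    apply WW.ext
    · simp
    · simp)

instance : Finite (WW m r) := by
  haveI : NeZero (2 ^ m) := ⟨by positivity⟩
  haveI : Finite (MM m r) := Pi.finite
  exact Finite.of_injective (β := MM m r × CC r) (fun w => (w.f, w.c)) (by
    intro a b h
    simp only [Prod.mk.injEq] at h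
    exact WW.ext h.1 h.2)

end WW

open WW

lemma CC_add_self (c : CC r) : c + c = 0 := by
  ext i
  have : ∀ y : ZMod 2, y + y = 0 := by decide
  simp [this]

lemma CC_neg (c : CC r) : -c = c := by
  rw [neg_eq_iff_add_eq_zero, CC_add_self]

/-- embedding of functions -/
def inl (f : MM m r) : WW m r := ⟨f, 0⟩

@[simp] lemma inl_f (f : MM m r) : (inl f).f = f := rfl
@[simp] lemma inl_c (f : MM m r) : (inl f).c = 0 := rfl

lemma inl_add (f g : MM m r) : inl (f + g) = inl f * inl g := by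
  apply WW.ext <;> simp

lemma inl_zero : inl (0 : MM m r) = 1 := rfl

lemma inl_neg (f : MM m r) : inl (-f) = (inl f)⁻¹ := by
  apply WW.ext <;> simp

lemma inl_injective : Function.Injective (inl (m := m) (r := r)) := fun _ _ h => congrArg WW.f h

lemma inl_nsmul (n : ℕ) (f : MM m r) : inl (n • f) = inl f ^ n := by
  induction n with
  | zero => simp [inl_zero]
  | succ n ih => rw [succ_nsmul, inl_add, ih, pow_succ]

lemma inl_sub (f g : MM m r) : inl (f - g) = inl f * (inl g)⁻¹ := by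
  rw [sub_eq_add_neg, inl_add, inl_neg]

lemma comm_inl (w : WW m r) (g : MM m r) : w * inl g * w⁻¹ * (inl g)⁻¹ = inl (tr w.c g - g) := by
  apply WW.ext
  · simp [← tr_add]
    abel
  · simp

/-- the group `N ⋊ C` -/
def Gs (m r : ℕ) : Subgroup (WW m r) where
  carrier := {w | w.f ∈ NN m r}
  mul_mem' := fun {a b} ha hb => AddSubgroup.add_mem _ ha (tr_mem hb)
  one_mem' := (NN m r).zero_mem
  inv_mem' := fun {a} ha => AddSubgroup.neg_mem _ (tr_mem ha)

lemma mem_Gs {w : WW m r} : w ∈ Gs m r ↔ w.f ∈ NN m r := Iff.rfl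

lemma isPGroup_WW : IsPGroup 2 (WW m r) := by
  intro g
  refine ⟨m + 1, ?_⟩
  have h1 : g ^ 2 = inl (g.f + tr g.c g.f) := by
    rw [pow_two]
    apply WW.ext
    · simp
    · simp [CC_add_self]
  rw [pow_succ', pow_mul, h1, ← inl_nsmul, two_pow_nsmul, inl_zero]

/-- the translation parts of a subgroup -/
def C1 (H : Subgroup (WW m r)) : AddSubgroup (CC r) where
  carrier := {c | ∃ w ∈ H, w.c = c}
  add_mem' := by
    rintro _ _ ⟨w, hw, rfl⟩ ⟨w', hw', rfl⟩
    exact ⟨w * w', H.mul_mem hw hw', rfl⟩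
  zero_mem' := ⟨1, H.one_mem, rfl⟩
  neg_mem' := by
    rintro _ ⟨w, hw, rfl⟩
    exact ⟨w⁻¹, H.inv_mem hw, rfl⟩

/-- the intersection of a subgroup with the functions -/
def N1 (H : Subgroup (WW m r)) : AddSubgroup (MM m r) where
  carrier := {f | inl f ∈ H}
  add_mem' := by
    intro a b ha hb
    simp only [Set.mem_setOf_eq] at *
    rw [inl_add]
    exact H.mul_mem ha hb
  zero_mem' := H.one_mem
  neg_mem' := by
    intro a ha
    simp only [Set.mem_setOf_eq] at *
    rw [inl_neg]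
    exact H.inv_mem ha

lemma mem_N1 {H : Subgroup (WW m r)} {f : MM m r} : f ∈ N1 H ↔ inl f ∈ H := Iff.rfl

lemma mem_C1 {H : Subgroup (WW m r)} {c : CC r} : c ∈ C1 H ↔ ∃ w ∈ H, w.c = c := Iff.rfl

lemma N1_le {H : Subgroup (WW m r)} (hH : H ≤ Gs m r) : N1 H ≤ NN m r := fun _ hf => hH hf

lemma N1_inv {H : Subgroup (WW m r)} : ∀ c ∈ C1 H, ∀ f ∈ N1 H, tr c f ∈ N1 H := by
  rintro _ ⟨w, hw, rfl⟩ f hf
  rw [mem_N1] at *
  have h1 := comm_inl w f
  have h2 : inl (tr w.c f) = inl (tr w.c f - f) * inl f := by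
    rw [← inl_add, sub_add_cancel]
  rw [h2, ← h1]
  exact H.mul_mem (H.mul_mem (H.mul_mem (H.mul_mem hw hf) (H.inv_mem hw)) (H.inv_mem hf)) hf

/-- projection to the translation parts -/
def prC (H : Subgroup (WW m r)) (h : H) : C1 H := ⟨h.1.c, h.1, h.2, rfl⟩

lemma prC_val (H : Subgroup (WW m r)) (h : H) : (prC H h).1 = h.1.c := rfl

lemma card_H (H : Subgroup (WW m r)) : Nat.card H = Nat.card (C1 H) * Nat.card (N1 H) := by
  classical
  choose s hs hsc using fun c : C1 H => c.2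
  rw [← Nat.card_prod]
  have key : ∀ h : H, inl (h.1 * (s (prC H h))⁻¹).f = h.1 * (s (prC H h))⁻¹ := by
    intro h
    apply WW.ext
    · rfl
    · rw [inl_c, mul_c, inv_c, hsc, prC_val, add_neg_cancel]
  let g : H → C1 H × N1 H := fun h => (prC H h, ⟨(h.1 * (s (prC H h))⁻¹).f, by
        rw [mem_N1, key]
        exact H.mul_mem h.2 (H.inv_mem (hs _))⟩)
  apply Nat.card_congr
  refine Equiv.ofBijective g ⟨?_, ?_⟩
  · intro a b hab
    have h1 : prC H a = prC H b := congrArg Prod.fst hab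
    have h2 : (a.1 * (s (prC H a))⁻¹).f = (b.1 * (s (prC H b))⁻¹).f :=
      congrArg (fun x : C1 H × N1 H => x.2.1) hab
    have h4 : a.1 * (s (prC H a))⁻¹ = b.1 * (s (prC H b))⁻¹ := by
      rw [← key a, h2, key b]
    rw [h1] at h4
    exact Subtype.ext (mul_right_cancel h4)
  · rintro ⟨c, ⟨f, hf⟩⟩
    refine ⟨⟨inl f * s c, H.mul_mem hf (hs c)⟩, ?_⟩
    have h2 : prC H ⟨inl f * s c, H.mul_mem hf (hs c)⟩ = c := by
      apply Subtype.ext
      rw [prC_val, mul_c, inl_c, zero_add, hsc]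
    apply Prod.ext
    · exact h2
    · apply Subtype.ext
      change (inl f * s c * (s (prC H ⟨inl f * s c, H.mul_mem hf (hs c)⟩))⁻¹).f = f
      rw [h2, mul_inv_cancel_right]
      rfl

lemma inl_rad_mem (H : Subgroup (WW m r)) : ∀ x ∈ rad (C1 H) (N1 H), inl x ∈ Sq H := by
  have h : rad (C1 H) (N1 H) ≤ N1 (Sq H) := by
    refine sup_le ?_ ?_
    · rintro _ ⟨f, hf, rfl⟩
      change inl ((2 : ℕ) • f) ∈ Sq H
      rw [inl_nsmul]
      exact sq_mem_Sq hf
    · rw [AddSubgroup.closure_le]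
      rintro _ ⟨_, ⟨w, hw, rfl⟩, f, hf, rfl⟩
      change inl (tr w.c f - f) ∈ Sq H
      rw [← comm_inl]
      exact comm_mem_Sq hw hf
  exact fun x hx => h hx

lemma card_rad_le (H : Subgroup (WW m r)) : Nat.card (rad (C1 H) (N1 H)) ≤ Nat.card (Sq H) := by
  apply Nat.card_le_card_of_injective (fun x : rad (C1 H) (N1 H) =>
    (⟨inl x.1, inl_rad_mem H x.1 x.2⟩ : Sq H))
  intro a b h
  apply Subtype.ext
  exact inl_injective (congrArg Subtype.val h)

/-- two-torsion -/
def tors (Y : AddSubgroup (MM m r)) : AddSubgroup (MM m r) :=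
  Y ⊓ (nsmulAddMonoidHom (α := MM m r) 2).ker

lemma mem_tors {Y : AddSubgroup (MM m r)} {f : MM m r} :
    f ∈ tors Y ↔ f ∈ Y ∧ (2 : ℕ) • f = 0 := Iff.rfl

lemma card_eq_tors (Y : AddSubgroup (MM m r)) :
    Nat.card Y = Nat.card (mulP 2 Y) * Nat.card (tors Y) := by
  let φ := (nsmulAddMonoidHom (α := MM m r) 2).comp Y.subtype
  have h1 := AddSubgroup.card_mul_index φ.ker
  rw [AddSubgroup.index_ker] at h1
  have h2 : φ.range = mulP 2 Y := by
    ext x
    constructor
    · rintro ⟨y, rfl⟩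
      exact ⟨y.1, y.2, rfl⟩
    · rintro ⟨y, hy, rfl⟩
      exact ⟨⟨y, hy⟩, rfl⟩
  have h3 : Nat.card φ.ker = Nat.card (tors Y) := by
    apply Nat.card_congr
    refine ⟨fun x => ⟨x.1.1, x.1.2, x.2⟩, fun x => ⟨⟨x.1, x.2.1⟩, x.2.2⟩, ?_, ?_⟩
    · intro x; rfl
    · intro x; rfl
  rw [← h1, h2, h3, mul_comm]

instance : Finite (MM m r) := by
  haveI : NeZero (2 ^ m) := ⟨by positivity⟩
  exact Pi.finite

/-- a subgroup of index at most two -/
lemma index_le_two {A : Type*} [AddCommGroup A] {X Y : AddSubgroup A} (hXY : X ≤ Y)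
    [Finite A] (h : Nat.card Y ≤ 2 * Nat.card X) :
    ∀ u ∈ Y, ∀ v ∈ Y, u ∈ X ∨ v ∈ X ∨ u - v ∈ X := by
  intro u hu v hv
  by_contra hcon
  push Not at hcon
  obtain ⟨h1, h2, h3⟩ := hcon
  -- three disjoint cosets inside `Y`
  have hinj : Function.Injective (fun p : Fin 3 × X =>
      (⟨(if p.1 = 0 then 0 else if p.1 = 1 then u else v) + p.2.1, by
        apply Y.add_mem _ (hXY p.2.2)
        split_ifs
        · exact Y.zero_mem
        · exact hu
        · exact hv⟩ : Y)) := by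
    rintro ⟨i, x, hx⟩ ⟨j, y, hy⟩ hij
    simp only [Subtype.mk.injEq] at hij
    have hxy : i = j → (i, (⟨x, hx⟩ : X)) = (j, ⟨y, hy⟩) := by
      rintro rfl
      have := add_left_cancel hij
      subst this
      rfl
    have hne : ∀ w : A, w ∉ X → ∀ a b : A, a ∈ X → b ∈ X → w + a ≠ b := by
      intro w hw a b ha hb hab
      apply hw
      have : w = b - a := by rw [← hab]; abel
      rw [this]
      exact X.sub_mem hb ha
    fin_cases i <;> fin_cases j <;> simp at hij hxy ⊢ 
    · exact hij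
    · exact absurd hij.symm (hne u h1 y x hy hx)
    · exact absurd hij.symm (hne v h2 y x hy hx)
    · exact absurd hij (hne u h1 x y hx hy)
    · exact hij
    · apply hne (u - v) h3 x y hx hy
      rw [sub_add_eq_add_sub, hij]
      abel
    · exact absurd hij (hne v h2 x y hx hy)
    · apply hne (u - v) h3 y x hy hx
      rw [sub_add_eq_add_sub, ← hij]
      abel
    · exact hij
  have hcard := Nat.card_le_card_of_injective _ hinj
  rw [Nat.card_prod, Nat.card_eq_fintype_card, Fintype.card_fin] at hcard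
  have : 0 < Nat.card X := Nat.card_pos
  omega

end Pool.Agent.H41.DMax
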