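import Mathlib

/-!
The translation module of non-classical polynomials `f : F_2^r → Z/2^m` of degree `≤ m`.
-/

set_option autoImplicit false

namespace Pool.Agent.H41.DMax

/-- The elementary abelian group of translations. -/
abbrev CC (r : ℕ) := Fin r → ZMod 2

/-- The value group. -/
abbrev AA (m : ℕ) := ZMod (2 ^ m)

/-- All functions. -/
abbrev MM (m r : ℕ) := CC r → AA m

variable {m r : ℕ}

/-- `0 ↦ 0`, `1 ↦ 1`. -/
def chi (m : ℕ) (x : ZMod 2) : AA m := if x = 0 then 0 else 1

lemma chi_add_one (x : ZMod 2) : chi m (x + 1) = 1 - chi m x := by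
  have h : ∀ x : ZMod 2, x = 0 ∨ x = 1 := by decide
  rcases h x with rfl | rfl
  · simp [chi]
  · have : (1 + 1 : ZMod 2) = 0 := by decide
    rw [this]
    simp [chi]

/-- Multilinear monomials. -/
def mon (m : ℕ) (I : Finset (Fin r)) : MM m r := fun x => ∏ i ∈ I, chi m (x i)

/-- Translation operators. -/
def tr (c : CC r) : MM m r →+ MM m r where
  toFun f := fun x => f (x + c)
  map_zero' := rfl
  map_add' _ _ := rfl

@[simp] lemma tr_apply (c : CC r) (f : MM m r) (x : CC r) : tr c f x = f (x + c) := rfl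

@[simp] lemma tr_zero (f : MM m r) : tr 0 f = f := by
  ext x; simp

lemma tr_add (c d : CC r) (f : MM m r) : tr (c + d) f = tr c (tr d f) := by
  ext x
  simp [add_assoc]

/-- Basis translations. -/
def ee (i : Fin r) : CC r := Pi.single i 1

lemma tr_ee_mon_notMem {i : Fin r} {I : Finset (Fin r)} (hi : i ∉ I) :
    tr (ee i) (mon m I) = mon m I := by
  ext x
  simp only [tr_apply, mon]
  apply Finset.prod_congr rfl
  intro j hj
  have : j ≠ i := fun h => hi (h ▸ hj)
  simp [ee, this]

lemma tr_ee_mon_mem {i : Fin r} {I : Finset (Fin r)} (hi : i ∈ I) :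
    tr (ee i) (mon m I) = mon m (I.erase i) - mon m I := by
  ext x
  simp only [tr_apply, mon, Pi.sub_apply]
  rw [← Finset.mul_prod_erase I (fun j => chi m (x j)) hi,
    ← Finset.mul_prod_erase I (fun j => chi m ((x + ee i) j)) hi]
  have h1 : ∏ j ∈ I.erase i, chi m ((x + ee i) j) = ∏ j ∈ I.erase i, chi m (x j) := by
    apply Finset.prod_congr rfl
    intro j hj
    have : j ≠ i := Finset.ne_of_mem_erase hj
    simp [ee, this]
  rw [h1]
  have h2 : (x + ee i) i = x i + 1 := by simp [ee]
  rw [h2, chi_add_one]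
  ring

/-- The generators `2^(|I|-1) x^I`. -/
def gen (m : ℕ) (I : Finset (Fin r)) : MM m r := (2 ^ (I.card - 1) : ℕ) • mon m I

/-- The module `N`. -/
def NN (m r : ℕ) : AddSubgroup (MM m r) := AddSubgroup.closure (Set.range (gen m))

lemma gen_mem (I : Finset (Fin r)) : gen m I ∈ NN m r :=
  AddSubgroup.subset_closure ⟨I, rfl⟩

/-- The elements `2^(m-1) x^I`. -/
def top (m : ℕ) (I : Finset (Fin r)) : MM m r := (2 ^ (m - 1) : ℕ) • mon m I

/-- The (scaled) Reed-Muller code of degree `t`. -/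
def RM (m r t : ℕ) : AddSubgroup (MM m r) :=
  AddSubgroup.closure {f | ∃ I : Finset (Fin r), I.card ≤ t ∧ f = top m I}

lemma two_pow_nsmul (f : MM m r) : (2 ^ m : ℕ) • f = 0 := by
  ext x
  simp only [Pi.smul_apply, nsmul_eq_mul, Pi.zero_apply]
  rw [ZMod.natCast_self]
  simp

lemma two_nsmul_top (hm : 1 ≤ m) (I : Finset (Fin r)) : (2 : ℕ) • top m I = 0 := by
  rw [top, smul_smul, ← pow_succ']
  rw [Nat.sub_add_cancel hm]
  exact two_pow_nsmul _

lemma top_mem_RM {I : Finset (Fin r)} {t : ℕ} (h : I.card ≤ t) : top m I ∈ RM m r t :=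
  AddSubgroup.subset_closure ⟨I, h, rfl⟩

lemma two_nsmul_RM (hm : 1 ≤ m) {t : ℕ} {f : MM m r} (hf : f ∈ RM m r t) : (2 : ℕ) • f = 0 := by
  induction hf using AddSubgroup.closure_induction with
  | mem x hx =>
    obtain ⟨I, _, rfl⟩ := hx
    exact two_nsmul_top hm I
  | zero => simp
  | add x y _ _ hx hy => rw [smul_add, hx, hy, add_zero]
  | neg x _ hx => rw [smul_neg, hx, neg_zero]

lemma top_mem_NN {I : Finset (Fin r)} (hm : 1 ≤ m) (hI : I.card ≤ m) : top m I ∈ NN m r := by
  have : top m I = (2 ^ (m - 1 - (I.card - 1)) : ℕ) • gen m I := by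
    rw [top, gen, smul_smul, ← pow_add]
    congr 2
    omega
  rw [this]
  exact AddSubgroup.nsmul_mem _ (gen_mem I) _

lemma RM_le_NN (hm : 1 ≤ m) : RM m r m ≤ NN m r := by
  rw [RM, AddSubgroup.closure_le]
  rintro f ⟨I, hI, rfl⟩
  exact top_mem_NN hm hI

/-- derivative of a top monomial in a basis direction -/
lemma tr_ee_top {i : Fin r} {J : Finset (Fin r)} (hm : 1 ≤ m) (hi : i ∉ J) :
    tr (ee i) (top m (insert i J)) - top m (insert i J) = top m J := by
  rw [top, map_nsmul, tr_ee_mon_mem (Finset.mem_insert_self i J), Finset.erase_insert hi]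
  rw [top, smul_sub]
  have h := two_nsmul_top (r := r) hm (insert i J)
  rw [top, two_nsmul] at h
  rw [sub_sub, h, sub_zero]

lemma tr_ee_top_notMem {i : Fin r} {J : Finset (Fin r)} (hi : i ∉ J) :
    tr (ee i) (top m J) = top m J := by
  rw [top, map_nsmul, tr_ee_mon_notMem hi]

lemma ee_add_tr_top {i j : Fin r} {J : Finset (Fin r)} (hm : 1 ≤ m) (hi : i ∉ J) (hj : j ∉ J)
    (hij : i ≠ j) :
    tr (ee i + ee j) (top m (insert i J)) - top m (insert i J) = top m J := by
  rw [tr_add, tr_ee_top_notMem (J := insert i J) (i := j)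
    (by simp [hj, hij.symm])]
  exact tr_ee_top hm hi

/-- Every translation is a sum of basis translations. -/
lemma mem_closure_ee (c : CC r) : c ∈ AddSubgroup.closure (Set.range (ee (r := r))) := by
  classical
  have h : c = ∑ i, (c i).val • ee i := by
    ext j
    rw [Finset.sum_apply, Finset.sum_eq_single j]
    · rw [Pi.smul_apply, ee, Pi.single_eq_same, nsmul_eq_mul, mul_one, ZMod.natCast_zmod_val]
    · intro b _ hb
      rw [Pi.smul_apply, ee, Pi.single_eq_of_ne hb.symm, smul_zero]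
    · intro h
      exact absurd (Finset.mem_univ j) h
  rw [h]
  apply AddSubgroup.sum_mem
  intro i _
  exact AddSubgroup.nsmul_mem _ (AddSubgroup.subset_closure (Set.mem_range_self i)) _

/-- induction on translations -/
lemma CC_induction {p : CC r → Prop} (h0 : p 0) (hadd : ∀ c d, p c → p d → p (c + d))
    (hee : ∀ i, p (ee i)) (c : CC r) : p c := by
  have hneg : ∀ x : CC r, -x = x := by
    intro x
    ext i
    have : ∀ y : ZMod 2, -y = y := by decide
    simp [this]
  refine AddSubgroup.closure_induction (p := fun x _ => p x) ?_ h0 ?_ ?_ (mem_closure_ee c)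
  · rintro x ⟨i, rfl⟩
    exact hee i
  · intro x y _ _ hx hy
    exact hadd x y hx hy
  · intro x _ hx
    rw [hneg]
    exact hx

/-- `B = 2N + Z·1`. -/
def BB (m r : ℕ) : AddSubgroup (MM m r) :=
  (NN m r).map (nsmulAddMonoidHom (α := MM m r) 2) ⊔ AddSubgroup.zmultiples (gen m ∅)

lemma BB_le_NN : BB m r ≤ NN m r := by
  refine sup_le ?_ ?_
  · rintro _ ⟨f, hf, rfl⟩
    exact AddSubgroup.nsmul_mem _ hf 2
  · exact AddSubgroup.zmultiples_le_of_mem (gen_mem ∅)

lemma two_nsmul_mem_BB {f : MM m r} (hf : f ∈ NN m r) : (2 : ℕ) • f ∈ BB m r :=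
  (le_sup_left : _ ≤ BB m r) ⟨f, hf, rfl⟩

lemma diff_gen_mem (i : Fin r) (I : Finset (Fin r)) : tr (ee i) (gen m I) - gen m I ∈ BB m r := by
  by_cases hi : i ∈ I
  · rw [gen, map_nsmul, tr_ee_mon_mem hi, smul_sub, sub_sub]
    have h1 : (2 ^ (I.card - 1) : ℕ) • mon m I + (2 ^ (I.card - 1) : ℕ) • mon m I ∈ BB m r := by
      have := two_nsmul_mem_BB (gen_mem (m := m) I)
      rw [two_nsmul] at this
      exact this
    refine AddSubgroup.sub_mem _ ?_ h1
    have hc : (I.erase i).card = I.card - 1 := Finset.card_erase_of_mem hi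
    rcases Nat.lt_or_ge (I.card) 2 with h | h
    · have hI : I.card = 1 := by
        have := Finset.card_pos.mpr ⟨i, hi⟩
        omega
      have he : I.erase i = ∅ := by
        rw [← Finset.card_eq_zero, hc, hI]
      rw [he, hI]
      have : (2 ^ (1 - 1) : ℕ) • mon m (∅ : Finset (Fin r)) = gen m ∅ := by simp [gen]
      rw [this]
      exact (le_sup_right : _ ≤ BB m r) (AddSubgroup.mem_zmultiples _)
    · have : (2 ^ (I.card - 1) : ℕ) • mon m (I.erase i) = (2 : ℕ) • gen m (I.erase i) := by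
        rw [gen, smul_smul, ← pow_succ', hc]
        congr 2
        omega
      rw [this]
      exact two_nsmul_mem_BB (gen_mem _)
  · rw [gen, map_nsmul, tr_ee_mon_notMem hi, sub_self]
    exact AddSubgroup.zero_mem _

lemma diff_ee_mem (i : Fin r) {f : MM m r} (hf : f ∈ NN m r) : tr (ee i) f - f ∈ BB m r := by
  induction hf using AddSubgroup.closure_induction with
  | mem x hx => obtain ⟨I, rfl⟩ := hx; exact diff_gen_mem i I
  | zero => simp
  | add x y _ _ hx hy =>
    have : tr (ee i) (x + y) - (x + y) = (tr (ee i) x - x) + (tr (ee i) y - y) := by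
      rw [map_add]; abel
    rw [this]
    exact AddSubgroup.add_mem _ hx hy
  | neg x _ hx =>
    have : tr (ee i) (-x) - (-x) = -(tr (ee i) x - x) := by
      rw [map_neg]; abel
    rw [this]
    exact AddSubgroup.neg_mem _ hx

lemma tr_mem_and_diff_mem (c : CC r) :
    ∀ f ∈ NN m r, tr c f ∈ NN m r ∧ tr c f - f ∈ BB m r := by
  induction c using CC_induction with
  | h0 => intro f hf; simp [hf]
  | hadd c d hc hd =>
    intro f hf
    obtain ⟨h1, h2⟩ := hd f hf
    obtain ⟨h3, h4⟩ := hc _ h1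
    rw [tr_add]
    refine ⟨h3, ?_⟩
    have : tr c (tr d f) - f = (tr c (tr d f) - tr d f) + (tr d f - f) := by abel
    rw [this]
    exact AddSubgroup.add_mem _ h4 h2
  | hee i =>
    intro f hf
    have h := diff_ee_mem i hf
    refine ⟨?_, h⟩
    have : tr (ee i) f = (tr (ee i) f - f) + f := by abel
    rw [this]
    exact AddSubgroup.add_mem _ (BB_le_NN h) hf

lemma tr_mem {c : CC r} {f : MM m r} (hf : f ∈ NN m r) : tr c f ∈ NN m r :=
  (tr_mem_and_diff_mem c f hf).1

lemma diff_mem (c : CC r) {f : MM m r} (hf : f ∈ NN m r) : tr c f - f ∈ BB m r :=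
  (tr_mem_and_diff_mem c f hf).2

/-- indicator of a set -/
def ind (J : Finset (Fin r)) : CC r := fun i => if i ∈ J then 1 else 0

lemma mon_ind (I J : Finset (Fin r)) : mon m I (ind J) = if I ⊆ J then 1 else 0 := by
  split_ifs with h
  · rw [mon]
    apply Finset.prod_eq_one
    intro i hi
    simp [chi, ind, h hi]
  · obtain ⟨i, hi, hiJ⟩ := Finset.not_subset.mp h
    rw [mon]
    apply Finset.prod_eq_zero hi
    simp [chi, ind, hiJ]

lemma mon_linIndep (b : Finset (Fin r) → AA m) (h : ∀ x : CC r, ∑ I, b I * mon m I x = 0) :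
    ∀ J, b J = 0 := by
  intro J
  induction J using Finset.strongInduction with
  | H J ih =>
    have h1 := h (ind J)
    rw [← Finset.sum_filter_add_sum_filter_not Finset.univ (fun I => I ⊂ J)] at h1
    have h2 : ∑ I ∈ Finset.univ.filter (fun I => I ⊂ J), b I * mon m I (ind J) = 0 := by
      apply Finset.sum_eq_zero
      intro I hI
      rw [ih I (Finset.mem_filter.mp hI).2, zero_mul]
    have h3 : ∑ I ∈ Finset.univ.filter (fun I => ¬ I ⊂ J), b I * mon m I (ind J) = b J := by
      rw [Finset.sum_eq_single J]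
      · simp [mon_ind]
      · intro I hI hIJ
        have hI' : ¬ I ⊂ J := (Finset.mem_filter.mp hI).2
        have : ¬ I ⊆ J := fun hs => hI' (lt_of_le_of_ne hs hIJ)
        simp [mon_ind, this]
      · intro hJ
        apply absurd _ hJ
        rw [Finset.mem_filter]
        exact ⟨Finset.mem_univ _, fun hh => lt_irrefl J hh⟩
    rw [h2, h3, zero_add] at h1
    exact h1

/-- coefficients -/
lemma exists_coeff {f : MM m r} (hf : f ∈ NN m r) :
    ∃ a : Finset (Fin r) → ℤ, f = ∑ I, a I • gen m I := by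
  classical
  induction hf using AddSubgroup.closure_induction with
  | mem x hx =>
    obtain ⟨I, rfl⟩ := hx
    refine ⟨Pi.single I 1, ?_⟩
    rw [Finset.sum_eq_single I]
    · simp
    · intro J _ hJ
      simp [hJ]
    · simp
  | zero => exact ⟨0, by simp⟩
  | add x y _ _ hx hy =>
    obtain ⟨a, rfl⟩ := hx
    obtain ⟨b, rfl⟩ := hy
    exact ⟨a + b, by simp [add_smul, Finset.sum_add_distrib]⟩
  | neg x _ hx =>
    obtain ⟨a, rfl⟩ := hx
    exact ⟨-a, by simp⟩

lemma half_torsion (hm : 1 ≤ m) (b : AA m) (hb : 2 * b = 0) :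
    ∃ k : ℕ, b = (k : AA m) * ((2 ^ (m - 1) : ℕ) : AA m) := by
  haveI : NeZero (2 ^ m) := ⟨by positivity⟩
  have h1 : ((2 * b.val : ℕ) : AA m) = 0 := by
    push_cast
    rw [ZMod.natCast_zmod_val]
    exact hb
  rw [ZMod.natCast_eq_zero_iff] at h1
  have h2 : 2 ^ m = 2 * 2 ^ (m - 1) := by
    rw [← pow_succ']; congr 1; omega
  have h3 : 2 * 2 ^ (m - 1) ∣ 2 * b.val := by rw [← h2]; exact h1
  obtain ⟨k, hk⟩ := Nat.dvd_of_mul_dvd_mul_left (by norm_num) h3
  refine ⟨k, ?_⟩
  have : (b.val : AA m) = b := ZMod.natCast_zmod_val b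
  rw [← this, hk]
  push_cast
  ring

/-- structural lemma: divisibility of torsion elements. -/
lemma torsion_mem_RM (hm : 1 ≤ m) {w : MM m r} (hw : w ∈ NN m r) {i : ℕ} (hi : i ≤ m - 1)
    (h : (2 ^ (i + 1) : ℕ) • w = 0) : (2 ^ i : ℕ) • w ∈ RM m r (m - i) := by
  classical
  obtain ⟨a, ha⟩ := exists_coeff hw
  set b : Finset (Fin r) → AA m := fun I => (a I : AA m) * ((2 ^ (i + (I.card - 1)) : ℕ) : AA m)
    with hb
  have hexp : ∀ x, ((2 ^ i : ℕ) • w) x = ∑ I, b I * mon m I x := by
    intro x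
    rw [ha, Finset.smul_sum, Finset.sum_apply]
    apply Finset.sum_congr rfl
    intro I _
    simp only [gen, Pi.smul_apply]
    rw [nsmul_eq_mul, nsmul_eq_mul, zsmul_eq_mul, hb]
    push_cast
    rw [pow_add]
    ring
  have h2 : ∀ J, 2 * b J = 0 := by
    apply mon_linIndep (fun I => 2 * b I)
    intro x
    have h3 : ((2 ^ (i + 1) : ℕ) • w) x = 0 := by rw [h]; rfl
    have h4 : ((2 ^ (i + 1) : ℕ) • w) x = 2 * ((2 ^ i : ℕ) • w) x := by
      simp only [Pi.smul_apply, nsmul_eq_mul]
      push_cast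
      ring
    rw [h4, hexp, Finset.mul_sum] at h3
    rw [← h3]
    apply Finset.sum_congr rfl
    intro I _
    ring
  have hk : ∀ I, ∃ k : ℕ, b I = (k : AA m) * ((2 ^ (m - 1) : ℕ) : AA m) :=
    fun I => half_torsion hm (b I) (h2 I)
  choose k hk using hk
  have hsum : (2 ^ i : ℕ) • w = ∑ I, (if I.card ≤ m - i then k I else 0) • top m I := by
    ext x
    rw [hexp, Finset.sum_apply]
    apply Finset.sum_congr rfl
    intro I _
    split_ifs with hI
    · rw [hk I]
      simp only [top, Pi.smul_apply]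
      rw [nsmul_eq_mul, nsmul_eq_mul]
      ring
    · have hz : b I = 0 := by
        rw [hb]
        have h5 : i + (I.card - 1) = m + (i + (I.card - 1) - m) := by omega
        simp only
        rw [h5, pow_add]
        push_cast
        have : ((2 : AA m) ^ m) = 0 := by
          have := ZMod.natCast_self (2 ^ m)
          push_cast at this
          exact this
        rw [this]
        ring
      rw [hz]
      simp
  rw [hsum]
  apply AddSubgroup.sum_mem
  intro I _
  split_ifs with hI
  · exact AddSubgroup.nsmul_mem _ (top_mem_RM hI) _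
  · simp

end Pool.Agent.H41.DMax
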